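import Mathlib
import Pool.Agent.H94BQ.Main
import Pool.Agent.H94BQ.An

/-!
# The parity conjecture at the places above `2` over the totally real biquadratic fields
# `ℚ(√(pp'), √(qq'))`

Let `p ≠ p'` be prime numbers that are `5` modulo `8` and `q ≠ q'` prime numbers that are `3` modulo
`8`. Let `F` be the totally real field `ℚ(√(pp'), √(qq'))` of degree four, in which `2` splits
completely, and let `η` be the quadratic character of the extension `F(√(-pq))` of `F`. Let `f` be ANY
newform on `Γ_0(2 ^ r)`, `r ≥ 0`, of ANY weight `k`, and let `g = BC_F(f) ⊗ η`: this is a Hilbert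
modular newform over `F` of parallel weight `k` and trivial central character. Let `λ` be ANY place
above `2` of its coefficient field. The theorem is the parity conjecture for all these `(F, g, λ)`: the
dimension of `H¹_f(F, V_{g,λ})` is even (it is `0` or `4`), and the order of `L(g, s)` at the centre is
even.

The theorem `EvenParityRealQuadratic` of this team is about real quadratic fields; here the fields have
degree four. (The known theorems on the parity conjecture for Hilbert modular forms are for odd primes
that split completely in `F`.)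

## The formal statement

* `GQ` is the absolute Galois group of `ℚ`, `ρ : GQ → GL_n(A)` is a representation over the ring of
  integers `A` of a finite extension `E` of `ℚ_2`, unramified outside `2` and residually unipotent, and
  `Ω` is an alternating form on `V = E ^ n` with `Ω(σ x, σ y) = χ(σ) Ω(x, y)`, `χ` the cyclotomic
  character. The local condition is given by a basis `l 0`, …, `l (k - 1)` of ANY subspace `L` of
  `H¹(ℚ_2, V)` with `L = L^⊥` for the cup product. Let `t² = pp'`, `t'² = qq'`, so that
  `F = ℚ(t, t')`, and `s² = -pq`. The first part says that the Selmer group of the classes in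
  `H¹(F, V ⊗ sgn s)` that are unramified outside `2` and in `L` at the four places above `2` has finite
  even dimension at most `4 k`, and that the dimension is `0` or `4` if `k = 1`.

* The second part says that for every newform `f` on `Γ_0(2 ^ r)` of any weight the product `L(g, s)` of
  the four functions `L(f ⊗ ε_{-d}, s)`, `d = pq, p'q, pq', p'q'`, defined by its Euler product, is an
  entire function, and that its order at the centre `1 / 2` (in the analytic normalisation) is even.
  Here `ε_{-d}(x) = (x/d)` is the character of `ℚ(√-d)`; the four forms `f ⊗ ε_{-d}` are the ones whose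
  base changes to `F` are `g`.

The first part applies to `V = V_{f,λ}(k/2)`, `n = 2`, `L = H¹_f(ℚ_2, V)`: the determinant is `χ`, and
so the standard alternating form is such a form `Ω`; the representation is residually unipotent because
the semisimplification of every representation `GQ → GL_2(F̄_2)` unramified outside `2` is trivial
(Tate); `L = L^⊥` by Bloch and Kato, and `dim L = 1`. Then the Selmer group is `H¹_f(F, V_g)`, as
`V_g = V ⊗ sgn s` on the Galois group of `F`. (These deductions use published theorems and are not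
part of the formal proof.) The first part also applies to the representations `V` induced from the
representations of Hilbert newforms of all weights and of `2`-power level over the totally real fields
`F_0` whose Galois closure is a `2`-extension unramified outside `2`, as `ℚ(√2)`.

## The proof

The Selmer group over `F` is the sum of the Selmer groups over `ℚ` of the four representations
`V ⊗ sgn √-d`, `d = pq, p'q, pq', p'q'` (two steps with fields of relative degree two). By the theorem
`Pool.Agent.Results.MP_b4b3cb_nt.ParityEveryDimension.result` on conjugate self-dual representations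
over `ℚ(√-d)`, which is one of the starting results,
`dim Sel(ℚ, V) + dim Sel(ℚ, V ⊗ sgn √-d) ≡ dim L` modulo `2` for each of them, and so the four
dimensions have the same parity. On the analytic side, the signs of the functional equations of the four
twists are equal.

The Selmer groups, the decomposition for a field of degree two and the two theorems for a single twist
are the files `Pool.Agent.H55.PR` of helper55.
-/

set_option autoImplicit false

namespace Pool.Agent.Results.MP_d4aa36_nt.EvenParityBiquadratic

open Matrix IsLocalRing UpperHalfPlane MatrixGroups CongruenceSubgroup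
open Pool.Agent.H55.PR (QBar GQ Emb Dec Inr cyc sgn mat tw cycE Cont Independent InSpan LocalCocycle
  CupZero Admissible Symplectic Lagrangian)
open Pool.Agent.W97.TW (IsNewform lam)

/-- The absolute Galois group of the field `ℚ(t, t')`. -/
noncomputable def GF (t t' : QBar) : Subgroup GQ :=
  (IntermediateField.adjoin ℚ {t, t'}).fixingSubgroup

/-- **The Selmer group** of `V ⊗ sgn s` over the field `ℚ(t, t')` for the local condition `L` at the
places above `2`, `L` being the span of the classes of the `l i`: `z` is a continuous cocycle of the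
Galois group of `ℚ(t, t')`, its class is unramified outside `2`, and for all `g` in the Galois group of
`ℚ` its conjugate `δ ↦ g z(g⁻¹ δ g)`, which is a cocycle of the decomposition group of `ι`, has its
class in `L`. (The places of `ℚ(t, t')` above `2` are given by the embeddings `ι ∘ g`.) -/
structure InSelmer {A : Type} [CommRing A] [TopologicalSpace A] (E : Type) [Field E] [Algebra A E]
    {n : ℕ} (ρ : GQ →* GL (Fin n) A) (s t t' : QBar) (ι : Emb 2) {k : ℕ}
    (l : Fin k → Dec ι → Fin n → E) (z : GF t t' → Fin n → E) : Prop where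
  mul : ∀ σ τ : GF t t', z (σ * τ) = z σ + tw E ρ s σ *ᵥ z τ
  cont : Cont (A := A) E z
  unramified : ∀ (p : ℕ) [Fact p.Prime] (ι' : Emb p), p ≠ 2 →
    ∃ v : Fin n → E, ∀ σ : GF t t', (σ : GQ) ∈ Inr ι' → z σ = tw E ρ s σ *ᵥ v - v
  two : ∀ g : GQ, ∃ y : Dec ι → Fin n → E, InSpan E (fun δ : Dec ι => mat E ρ δ) l y ∧
    ∀ (δ : Dec ι) (h : GF t t'), (h : GQ) = g⁻¹ * δ * g → y δ = tw E ρ s g *ᵥ z h

/-- The Selmer group of `V ⊗ sgn s` over `ℚ(t, t')` for the local condition `L` at the places above `2`
has the dimension `r`: there is a basis `z 0`, …, `z (r - 1)`. -/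
def SelmerDimension {A : Type} [CommRing A] [TopologicalSpace A] (E : Type) [Field E] [Algebra A E]
    {n : ℕ} (ρ : GQ →* GL (Fin n) A) (s t t' : QBar) (ι : Emb 2) {k : ℕ}
    (l : Fin k → Dec ι → Fin n → E) (r : ℕ) : Prop :=
  ∃ z : Fin r → GF t t' → Fin n → E, (∀ i, InSelmer E ρ s t t' ι l (z i)) ∧
    Independent E (fun σ : GF t t' => tw E ρ s σ) z ∧
    ∀ y, InSelmer E ρ s t t' ι l y → InSpan E (fun σ : GF t t' => tw E ρ s σ) z y

/-- The Euler factor at `x` of `L(f ⊗ ε, s)`, in the analytic normalisation, for a form `f` of level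
`N`: `1 - a_x x^(-(k-1)/2) e x^(-s) + [x ∤ N] e² x^(-2s)`, where `e = ε(x)`. -/
noncomputable def factor (N : ℕ) (k : ℤ) (f : CuspForm (Gamma0 N : Subgroup (GL (Fin 2) ℝ)) k)
    (x : ℕ) (e s : ℂ) : ℂ :=
  1 - lam N k f x * e * (x : ℂ) ^ (-s) + (if x ∣ N then 0 else 1) * e ^ 2 * (x : ℂ) ^ (-2 * s)

/-- `L` is the `L`-function of `g = BC_F(f) ⊗ η`, `F = ℚ(√(pp'), √(qq'))`, `η` the character of
`F(√(-pq))/F`: an entire function that for `Re s > 3/2` is the product of the Euler factors of the four
forms `f ⊗ ε_{-d}`, `d = pq, p'q, pq', p'q'`, with `ε_{-d}(x) = (x/d)`. The centre is `1 / 2`. -/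
def IsLFunction (N : ℕ) (k : ℤ) (f : CuspForm (Gamma0 N : Subgroup (GL (Fin 2) ℝ)) k)
    (p p' q q' : ℕ) (L : ℂ → ℂ) : Prop :=
  Differentiable ℂ L ∧ ∀ s : ℂ, 3 / 2 < s.re → HasProd (fun x : Nat.Primes =>
    (factor N k f x (jacobiSym (x : ℕ) (p * q) : ℂ) s *
      factor N k f x (jacobiSym (x : ℕ) (p' * q) : ℂ) s *
      (factor N k f x (jacobiSym (x : ℕ) (p * q') : ℂ) s *
      factor N k f x (jacobiSym (x : ℕ) (p' * q') : ℂ) s))⁻¹) (L s)

lemma mem_GF {t t' : QBar} {σ : GQ} : σ ∈ GF t t' ↔ σ t = t ∧ σ t' = t' := by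
  unfold GF
  rw [IntermediateField.mem_fixingSubgroup_iff]
  constructor
  · intro h
    exact ⟨h t (IntermediateField.subset_adjoin ℚ _ (Set.mem_insert _ _)),
      h t' (IntermediateField.subset_adjoin ℚ _ (Set.mem_insert_of_mem _ (Set.mem_singleton _)))⟩
  · rintro ⟨h, h'⟩ x hx
    have h1 : IntermediateField.adjoin ℚ {t, t'} ≤
        IntermediateField.fixedField (Subgroup.zpowers σ) := by
      rw [IntermediateField.adjoin_le_iff]
      rintro y hy
      rw [SetLike.mem_coe, IntermediateField.mem_fixedField_iff]
      intro τ hτ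
      obtain ⟨k, rfl⟩ := hτ
      have h2 : σ ∈ MulAction.stabilizer GQ y := by
        rcases hy with rfl | hy
        · exact h
        · rw [Set.mem_singleton_iff] at hy
          rw [hy]
          exact h'
      exact (MulAction.stabilizer GQ y).zpow_mem h2 k
    exact (IntermediateField.mem_fixedField_iff _ x).1 (h1 hx) σ (Subgroup.mem_zpowers σ)

lemma GF_eq (t t' : QBar) : GF t t' = Pool.Agent.H94BQ.KK t t' := by
  ext σ
  rw [mem_GF, Subgroup.mem_inf, Pool.Agent.H55.PR.mem_GF, Pool.Agent.H55.PR.mem_GF]

/-- **The parity conjecture for the forms `g = BC_F(f) ⊗ η` at the places above `2`**, for the fields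
`F = ℚ(√(pp'), √(qq'))`: the Selmer groups have even dimension and the order of the `L`-function at the
centre is even. -/
theorem result : ∀ p p' q q' : ℕ, p.Prime → p'.Prime → q.Prime → q'.Prime → p % 8 = 5 →
    p' % 8 = 5 → q % 8 = 3 → q' % 8 = 3 → p ≠ p' → q ≠ q' →
    (∀ s t t' : QBar, s ^ 2 = -((p * q : ℕ) : QBar) → t ^ 2 = ((p * p' : ℕ) : QBar) →
      t' ^ 2 = ((q * q' : ℕ) : QBar) →
      ∀ (A : Type) [CommRing A] [IsDomain A] [IsLocalRing A] [TopologicalSpace A]
        [IsTopologicalRing A] [Algebra ℤ_[2] A] [Module.Finite ℤ_[2] A] [Module.Free ℤ_[2] A],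
        IsAdic (maximalIdeal A) →
      ∀ (E : Type) [Field E] [Algebra A E] [IsFractionRing A E] (n : ℕ) (ρ : GQ →* GL (Fin n) A),
        Admissible ρ → ∀ Ω : Matrix (Fin n) (Fin n) E, Symplectic E ρ Ω →
      ∀ (ι : Emb 2) (k : ℕ) (l : Fin k → Dec ι → Fin n → E), Lagrangian E ρ Ω ι l →
        ∃ r : ℕ, SelmerDimension E ρ s t t' ι l r ∧ Even r ∧ r ≤ 4 * k ∧
          (k = 1 → r = 0 ∨ r = 4)) ∧
    ∀ (r : ℕ) (k : ℤ), 0 < k → ∀ f : CuspForm (Gamma0 (2 ^ r) : Subgroup (GL (Fin 2) ℝ)) k,
      IsNewform (2 ^ r) k f → ∃ L : ℂ → ℂ, IsLFunction (2 ^ r) k f p p' q q' L ∧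
        ∃ m : ℕ, analyticOrderAt L (1 / 2) = m ∧ Even m := by
  intro p p' q q' hp hp' hq hq' p5 p5' q3 q3' hpp hqq
  have hF : Pool.Agent.H94BQ.Four p p' q q' := ⟨hp, hp', hq, hq', p5, p5', q3, q3', hpp, hqq⟩
  refine ⟨?_, ?_⟩
  · intro s t t' hs ht ht' A _ _ _ _ _ _ _ _ hA E _ _ _ n ρ hρ Ω hΩ ι k l hl
    have key := Pool.Agent.H94BQ.evenK hF hs ht ht' hA hρ hΩ hl
    rw [← GF_eq t t'] at key
    obtain ⟨r, h1, h2, h3, z, h4, h5, h6⟩ := key
    refine ⟨r, ⟨z, fun i => ?_, h5, fun y hy => ?_⟩, h1, h2, h3⟩
    · obtain ⟨g1, g2, g3, g4⟩ := h4 i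
      exact ⟨g1, g2, g3, g4⟩
    · exact h6 y ⟨hy.mul, hy.cont, hy.unramified, hy.two⟩
  · intro r k hk f hf
    obtain ⟨L, h1, h2, m, h3, h4⟩ := Pool.Agent.H94BQ.evenL4 hF.c1 hF.c2 hF.c3 hF.c4 hk hf
    exact ⟨L, ⟨h1, fun s hs => h2 s hs⟩, m, h4, h3⟩

end Pool.Agent.Results.MP_d4aa36_nt.EvenParityBiquadratic
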