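import Mathlib
import Pool.Agent.H94BQ.Tow3

/-!
# The parity of Selmer groups at the places above `2` in towers of totally real fields

The theorem is about the algebraic half of the parity conjecture, for the base change to `F` of a
representation `V` over `ℚ` (and its twist by the quadratic character of an extension `F(s)` of `F`,
`s² = -d`), at the places above `2`. The fields `F` are obtained from a field `F_0` by successive
quadratic extensions `F'/F''` of finite Galois extensions of `ℚ` in which `2` splits completely, such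
that the nontrivial element of `Gal(F'/F'')` is the square of an element of `Gal(F'/ℚ)` (`Layer`). For
example `F'/ℚ` is cyclic of degree `2 ^ m`, `m ≥ 2`, and `F''` is its subfield of degree `2 ^ (m - 1)`.

1. If `-1` is not a square in the coefficient field `E`, the dimension of the Selmer group over `F` of
   `V ⊗ sgn s` is congruent modulo `2` to the dimension over `F_0`, for every representation `V` and
   every local condition at `2`, provided that the dimension over `F` is finite.

2. For `F_0 = ℚ(√(dd'))`, where `d ≠ d'` are products of a prime `5` mod `8` and a prime `3` mod `8` or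
   are primes `7` mod `16`, and for `F_0 = ℚ(√(pp'), √(qq'))`, where `p ≠ p'` are primes `5` mod `8` and
   `q ≠ q'` are primes `3` mod `8`, the dimension of the Selmer group over `F`, if it is finite, is EVEN
   for every tower over `F_0`, every symplectic representation `V` of `GQ`, residually unipotent and
   unramified outside `2`, with `-1` not a square in `E`, every local condition `L = L^⊥` at `2` and
   `s² = -d` (`s² = -pq`).

In particular let `p ≠ p'` be primes that are `5` modulo `8` and `q ≠ q'` be primes that are `3` modulo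
`8`, let `C` be the totally real cyclic field of degree four and conductor `p p'` in which `2` splits
completely (let `χ`, `χ'` be characters of order four and of conductors `p`, `p'`; they are odd, `χ(2)`
and `χ'(2)` are square roots of `-1`, and exactly one of the two even characters `χ χ'` and
`χ χ'⁻¹` has the value `1` at `2`); it contains `ℚ(√(pp'))`. The theorem applies with
`F_0 = ℚ(√(dd'))`, `d = pq`, `d' = p'q`, to `F = C`, and with `F_0 = ℚ(√(pp'), √(qq'))` to
`F = C(√(qq'))`, which is of degree eight over `ℚ`. Let `f` be a newform on `Γ_0(2 ^ r)` of weight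
`k` and let `λ` be a place above `2` of its coefficient field such that `-1` is not a square in the
completion. With `V = V_{f,λ}(k/2)`, `n = 2`, `L = H¹_f(ℚ_2, V)` the second part says that
`dim H¹_f(F, V_g)` is even, for the Hilbert modular newform `g = BC_F(f) ⊗ η` over `F`, `η` the
character of `F(s)/F`. (The order of `L(g, s)` at the centre is even too for these two fields: the
nonreal characters come in pairs `ψ`, `ψ̄` for which `L(f ⊗ ψ, s)`, `L(f ⊗ ψ̄, s)` have the same order
at the centre, and the real ones give the theorems `EvenParityRealQuadratic` and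
`EvenParityBiquadratic`. This is not a part of the formal proof. The determinant of `V` is `χ`, and so
the standard alternating form is such a form `Ω`; `V` is residually unipotent because the
semisimplification of every representation `GQ → GL_2(F̄_2)` unramified outside `2` is trivial (Tate);
`L = L^⊥` by Bloch and Kato; `H¹_f(F, V_g)` is of finite dimension.)

## The proof

Let `F'/F''` be one of the quadratic extensions. The Selmer group `W` over `F'` has an action of
`Gal(F'/ℚ)` (`V ⊗ sgn s` is a representation of `GQ`), and the fixed space of `Gal(F'/F'')` is the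
Selmer group over `F''`. There is an element `g` of `Gal(F'/ℚ)` whose square `c` generates
`Gal(F'/F'')`; on the space on which `c` is `-1` the square of the action of `g` is `-1`, and so the
dimension of this space is even if `-1` is not a square in `E` (the square of the determinant of `g` is
`(-1)^dim`). The base cases are the theorems on the quadratic and biquadratic fields
(`Pool.Agent.H55.PR` of helper55 and `Pool.Agent.H94BQ`), which use the theorem
`Pool.Agent.Results.MP_b4b3cb_nt.ParityEveryDimension.result`, one of the starting results.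
-/

set_option autoImplicit false

namespace Pool.Agent.Results.MP_d4aa36_nt.EvenParityInTowers

open Matrix IsLocalRing
open Pool.Agent.H55.PR (QBar GQ Emb Dec Inr cyc sgn mat tw cycE Cont Independent InSpan LocalCocycle
  CupZero Admissible Symplectic Lagrangian InClass)

/-- The absolute Galois group of the field `F`. -/
noncomputable def GK (F : IntermediateField ℚ QBar) : Subgroup GQ := F.fixingSubgroup

/-- The degree of `F` over `ℚ`. -/
noncomputable def degree (F : IntermediateField ℚ QBar) : ℕ := Module.finrank ℚ F

/-- `F` is a finite Galois extension of `ℚ`. -/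
structure FiniteGalois (F : IntermediateField ℚ QBar) : Prop where
  finite : FiniteDimensional ℚ F
  galois : IsGalois ℚ F

/-- A layer of a tower: `F` is a quadratic extension of `F'`, it is a finite Galois extension of `ℚ`
in which `2` splits completely (the decomposition group of `ι` is contained in the Galois group of `F`),
and there is an automorphism `g` whose square is trivial on `F'` but not on `F`. -/
structure Layer (ι : Emb 2) (F' F : IntermediateField ℚ QBar) : Prop where
  le : F' ≤ F
  galois : FiniteGalois F
  quadratic : degree F = 2 * degree F'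
  split : Dec ι ≤ GK F
  square : ∃ g : GQ, g * g ∈ GK F' ∧ g * g ∉ GK F

/-- `F` is obtained from `F₀` by a finite number of layers. -/
def Tower (ι : Emb 2) (F₀ F : IntermediateField ℚ QBar) : Prop :=
  Relation.ReflTransGen (Layer ι) F₀ F

/-- **The Selmer group** of `V ⊗ sgn s` over the field `F` for the local condition `L` at the
places above `2`, `L` being the span of the classes of the `l i`: `z` is a continuous cocycle of the
Galois group of `F`, its class is unramified outside `2`, and for all `g` in the Galois group of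
`ℚ` its conjugate `δ ↦ g z(g⁻¹ δ g)`, which is a cocycle of the decomposition group of `ι` (if `2` splits
completely in the Galois extension `F` of `ℚ`), has its class in `L`. (The places of `F` above `2` are
given by the embeddings `ι ∘ g`.) -/
structure InSelmer {A : Type} [CommRing A] [TopologicalSpace A] (E : Type) [Field E] [Algebra A E]
    {n : ℕ} (ρ : GQ →* GL (Fin n) A) (s : QBar) (F : IntermediateField ℚ QBar) (ι : Emb 2) {k : ℕ}
    (l : Fin k → Dec ι → Fin n → E) (z : GK F → Fin n → E) : Prop where
  mul : ∀ σ τ : GK F, z (σ * τ) = z σ + tw E ρ s σ *ᵥ z τ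
  cont : Cont (A := A) E z
  unramified : ∀ (p : ℕ) [Fact p.Prime] (ι' : Emb p), p ≠ 2 →
    ∃ v : Fin n → E, ∀ σ : GK F, (σ : GQ) ∈ Inr ι' → z σ = tw E ρ s σ *ᵥ v - v
  two : ∀ g : GQ, ∃ y : Dec ι → Fin n → E, InSpan E (fun δ : Dec ι => mat E ρ δ) l y ∧
    ∀ (δ : Dec ι) (h : GK F), (h : GQ) = g⁻¹ * δ * g → y δ = tw E ρ s g *ᵥ z h

/-- The Selmer group of `V ⊗ sgn s` over `F` for the local condition `L` at the places above `2`
has the dimension `r`: there is a basis `z 0`, …, `z (r - 1)`. -/
def SelmerDimension {A : Type} [CommRing A] [TopologicalSpace A] (E : Type) [Field E] [Algebra A E]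
    {n : ℕ} (ρ : GQ →* GL (Fin n) A) (s : QBar) (F : IntermediateField ℚ QBar) (ι : Emb 2) {k : ℕ}
    (l : Fin k → Dec ι → Fin n → E) (r : ℕ) : Prop :=
  ∃ z : Fin r → GK F → Fin n → E, (∀ i, InSelmer E ρ s F ι l (z i)) ∧
    Independent E (fun σ : GK F => tw E ρ s σ) z ∧
    ∀ y, InSelmer E ρ s F ι l y → InSpan E (fun σ : GK F => tw E ρ s σ) z y

lemma step_of {ι : Emb 2} {F' F : IntermediateField ℚ QBar} (h : Layer ι F' F) :
    Pool.Agent.H94BQ.T.Step ι (GK F') (GK F) := by
  have hfin := h.galois.finite
  have hgal := h.galois.galois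
  have hQ : IsGalois ℚ QBar := inferInstance
  have hgal' : @IsGalois ℚ _ F _ (IntermediateField.algebra' F) := by
    convert hgal
    exact Subsingleton.elim _ _
  have hn : F.fixingSubgroup.Normal :=
    @IsGalois.fixingSubgroup_normal_of_isGalois ℚ QBar _ _ _ F hQ hgal'
  refine ⟨IntermediateField.fixingSubgroup_le h.le, hn, ?_, ?_, h.split, h.square⟩
  · have hfin' : @FiniteDimensional ℚ F _ _ (IntermediateField.algebra' F).toModule := by
      convert hfin
    exact @IntermediateField.fixingSubgroup_isOpen ℚ QBar _ _ _ F hfin'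
  · have h1 := IntermediateField.finrank_eq_fixingSubgroup_index (F := ℚ) (E' := QBar) F
    have h2 := IntermediateField.finrank_eq_fixingSubgroup_index (F := ℚ) (E' := QBar) F'
    have h3 := Subgroup.relIndex_mul_index (IntermediateField.fixingSubgroup_le h.le)
    have h4 : 0 < Module.finrank ℚ F := Module.finrank_pos
    have h5 : Module.finrank ℚ F = 2 * Module.finrank ℚ F' := h.quadratic
    rw [← h1, ← h2, h5] at h3
    have h6 : 0 < Module.finrank ℚ F' := by omega
    exact Nat.eq_of_mul_eq_mul_right h6 h3

lemma tower_of {ι : Emb 2} {F₀ F : IntermediateField ℚ QBar} (h : Tower ι F₀ F) :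
    Relation.ReflTransGen (Pool.Agent.H94BQ.T.Step ι) (GK F₀) (GK F) := by
  unfold Tower at h
  induction h with
  | refl => exact Relation.ReflTransGen.refl
  | tail _ h2 ih => exact ih.tail (step_of h2)

lemma mem_two {t t' : QBar} {σ : GQ} :
    σ ∈ (IntermediateField.adjoin ℚ {t, t'}).fixingSubgroup ↔ σ t = t ∧ σ t' = t' := by
  rw [IntermediateField.mem_fixingSubgroup_iff]
  constructor
  · intro h
    exact ⟨h t (IntermediateField.subset_adjoin ℚ _ (Set.mem_insert _ _)),
      h t' (IntermediateField.subset_adjoin ℚ _ (Set.mem_insert_of_mem _ (Set.mem_singleton _)))⟩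
  · rintro ⟨h, h'⟩ x hx
    have h1 : IntermediateField.adjoin ℚ {t, t'} ≤
        IntermediateField.fixedField (Subgroup.zpowers σ) := by
      rw [IntermediateField.adjoin_le_iff]
      rintro y hy
      rw [SetLike.mem_coe, IntermediateField.mem_fixedField_iff]
      intro τ hτ
      obtain ⟨k, rfl⟩ := hτ
      have h2 : σ ∈ MulAction.stabilizer GQ y := by
        rcases hy with rfl | hy
        · exact h
        · rw [Set.mem_singleton_iff] at hy
          rw [hy]
          exact h'
      exact (MulAction.stabilizer GQ y).zpow_mem h2 k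
    exact (IntermediateField.mem_fixedField_iff _ x).1 (h1 hx) σ (Subgroup.mem_zpowers σ)

lemma KK_eq (t t' : QBar) :
    (IntermediateField.adjoin ℚ {t, t'}).fixingSubgroup = Pool.Agent.H94BQ.KK t t' := by
  ext σ
  rw [mem_two, Subgroup.mem_inf, Pool.Agent.H55.PR.mem_GF, Pool.Agent.H55.PR.mem_GF]

section

variable {A : Type} [CommRing A] [IsDomain A] [TopologicalSpace A] [IsTopologicalRing A]
  {E : Type} [Field E] [Algebra A E] [IsFractionRing A E] {n : ℕ}
  {ρ : GQ →* GL (Fin n) A} {s : QBar} {ι : Emb 2} {k : ℕ}

lemma dim_iff {F : IntermediateField ℚ QBar} {l : Fin k → Dec ι → Fin n → E} {r : ℕ} :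
    SelmerDimension E ρ s F ι l r ↔ Pool.Agent.H94BQ.T.Dim ρ s (GK F) ι l r := by
  constructor
  · rintro ⟨z, h1, h2, h3⟩
    refine ⟨z, fun i => ?_, h2, fun y hy => ?_⟩
    · exact ⟨(h1 i).mul, (h1 i).cont, (h1 i).unramified, (h1 i).two⟩
    · obtain ⟨g1, g2, g3, g4⟩ := hy
      exact h3 y ⟨g1, g2, g3, g4⟩
  · rintro ⟨z, h1, h2, h3⟩
    refine ⟨z, fun i => ?_, h2, fun y hy => ?_⟩
    · obtain ⟨g1, g2, g3, g4⟩ := h1 i
      exact ⟨g1, g2, g3, g4⟩
    · exact h3 y ⟨hy.mul, hy.cont, hy.unramified, hy.two⟩

end

/-- The parity of the dimension of the Selmer group of `V ⊗ sgn s` does not change in a tower, for every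
representation `V` over a field `E` in which `-1` is not a square, and every local condition. -/
def ParityConstant (s : QBar) : Prop :=
  ∀ (A : Type) [CommRing A] [IsDomain A] [TopologicalSpace A] [IsTopologicalRing A]
    (E : Type) [Field E] [Algebra A E] [IsFractionRing A E], (2 : E) ≠ 0 →
    (∀ x : E, x ^ 2 ≠ -1) →
  ∀ (n : ℕ) (ρ : GQ →* GL (Fin n) A) (ι : Emb 2) (k : ℕ) (l : Fin k → Dec ι → Fin n → E)
    (F₀ F : IntermediateField ℚ QBar), Tower ι F₀ F → ∀ r : ℕ, SelmerDimension E ρ s F ι l r →
    ∃ r₀, SelmerDimension E ρ s F₀ ι l r₀ ∧ Even (r + r₀)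

/-- The dimension of the Selmer group of `V ⊗ sgn s` over `F` is even, for all fields `F` obtained by
towers over `F₀`, all symplectic representations `V`, residually unipotent and unramified outside `2`,
over the finite extensions `E` of `ℚ_2` in which `-1` is not a square, and all local conditions
`L = L^⊥`. -/
def EvenInTowers (s : QBar) (F₀ : IntermediateField ℚ QBar) : Prop :=
  ∀ (A : Type) [CommRing A] [IsDomain A] [IsLocalRing A] [TopologicalSpace A]
    [IsTopologicalRing A] [Algebra ℤ_[2] A] [Module.Finite ℤ_[2] A] [Module.Free ℤ_[2] A],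
    IsAdic (maximalIdeal A) →
  ∀ (E : Type) [Field E] [Algebra A E] [IsFractionRing A E], (∀ x : E, x ^ 2 ≠ -1) →
  ∀ (n : ℕ) (ρ : GQ →* GL (Fin n) A), Admissible ρ →
  ∀ Ω : Matrix (Fin n) (Fin n) E, Symplectic E ρ Ω →
  ∀ (ι : Emb 2) (k : ℕ) (l : Fin k → Dec ι → Fin n → E), Lagrangian E ρ Ω ι l →
  ∀ F : IntermediateField ℚ QBar, Tower ι F₀ F → ∀ r, SelmerDimension E ρ s F ι l r → Even r

/-- **The parity of the Selmer groups in towers**: it does not change in a tower if `-1` is not a square
in `E`, and it is even over the real quadratic fields `ℚ(√(dd'))` and the biquadratic fields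
`ℚ(√(pp'), √(qq'))`. -/
theorem result :
    (∀ (d : ℕ) (s : QBar), d ≠ 0 → s ^ 2 = -(d : QBar) → ParityConstant s) ∧
    (∀ (d d' : ℕ) (s t : QBar), InClass d → InClass d' → d ≠ d' →
      s ^ 2 = -(d : QBar) → t ^ 2 = ((d * d' : ℕ) : QBar) →
      EvenInTowers s (IntermediateField.adjoin ℚ {t})) ∧
    ∀ (p p' q q' : ℕ) (s t t' : QBar), p.Prime → p'.Prime → q.Prime → q'.Prime →
      p % 8 = 5 → p' % 8 = 5 → q % 8 = 3 → q' % 8 = 3 → p ≠ p' → q ≠ q' →
      s ^ 2 = -((p * q : ℕ) : QBar) → t ^ 2 = ((p * p' : ℕ) : QBar) →
      t' ^ 2 = ((q * q' : ℕ) : QBar) → EvenInTowers s (IntermediateField.adjoin ℚ {t, t'}) := by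
  refine ⟨?_, ?_, ?_⟩
  · intro d s hd hs A _ _ _ _ E _ _ _ h2 hE n ρ ι k l F₀ F hT r hr
    obtain ⟨r₀, h3, h4⟩ := Pool.Agent.H94BQ.T.tower h2 hE (Pool.Agent.H55.PR.sq_of hd hs) (tower_of hT)
      (dim_iff.1 hr)
    exact ⟨r₀, dim_iff.2 h3, h4⟩
  · intro d d' s t hd hd' hne hs ht A _ _ _ _ _ _ _ _ hA E _ _ _ hE n ρ hρ Ω hΩ ι k l hl F hT r hr
    have hsq := Pool.Agent.H55.PR.sq_of (Pool.Agent.Z384.Fld.ne_zero hd) hs
    have hs0 : s ≠ 0 := hsq.1
    have hs' : (t / s) ^ 2 = -(d' : QBar) := by
      have hd0 : (d : QBar) ≠ 0 := by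
        intro h0
        rw [h0, neg_zero] at hs
        exact hs0 (pow_eq_zero_iff (two_ne_zero) |>.1 hs)
      rw [div_pow, ht, hs]
      push_cast
      field_simp
    have hst : s * (t / s) = t := by
      field_simp
    have hT' := tower_of hT
    have key : ∀ u : QBar, u = t → Relation.ReflTransGen (Pool.Agent.H94BQ.T.Step ι)
        (Pool.Agent.H55.PR.GF u) (GK F) := by
      rintro u rfl
      exact hT'
    exact Pool.Agent.H94BQ.T.tower_two hE hd hd' hne hs hs' hA hρ hΩ hl (key _ hst) (dim_iff.1 hr)
  · intro p p' q q' s t t' hp hp' hq hq' p5 p5' q3 q3' hpp hqq hs ht ht' A _ _ _ _ _ _ _ _ hA E _ _ _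
      hE n ρ hρ Ω hΩ ι k l hl F hT r hr
    have hF : Pool.Agent.H94BQ.Four p p' q q' := ⟨hp, hp', hq, hq', p5, p5', q3, q3', hpp, hqq⟩
    exact Pool.Agent.H94BQ.T.tower_four hE hF hs ht ht' hA hρ hΩ hl (KK_eq t t') (tower_of hT)
      (dim_iff.1 hr)

end Pool.Agent.Results.MP_d4aa36_nt.EvenParityInTowers
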