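import Mathlib
import Pool.Agent.H55.PR.Main
import Pool.Agent.H55.PR.AnQ

/-!
# The parity conjecture at the places above `2`, over real quadratic fields, for all twisted base
# changes of the newforms of `2`-power level

Let `d ≠ d'` be prime numbers that are `7` modulo `16`, or products of a prime number that is `5` modulo
`8` and of a prime number that is `3` modulo `8`. Let `F` be the real quadratic field `ℚ(√(dd'))` and let
`η` be the quadratic character of the extension `F(√-d) = F(√-d')` of `F`. Let `f` be ANY newform on
`Γ_0(2 ^ r)`, `r ≥ 0`, of ANY weight `k`, and let `g = BC_F(f) ⊗ η`: this is a Hilbert modular newform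
over `F` of parallel weight `k` and trivial central character. Let `λ` be ANY place above `2` of its
coefficient field. The theorem is the parity conjecture for all these `(F, g, λ)`: the dimension of
`H¹_f(F, V_{g,λ})` is even (it is `0` or `2`), and the order of `L(g, s)` at the centre is even.

No hypothesis is made on the local component of `f` at `2`, which can be supercuspidal, nor on the
weight. (The known theorems on the parity conjecture for Hilbert modular forms are for odd primes that
split completely in `F`.)

## The formal statement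

* `GQ` is the absolute Galois group of `ℚ`, `ρ : GQ → GL_n(A)` is a representation over the ring of
  integers `A` of a finite extension `E` of `ℚ_2`, unramified outside `2` and residually unipotent, and
  `Ω` is an alternating form on `V = E ^ n` with `Ω(σ x, σ y) = χ(σ) Ω(x, y)`, `χ` the cyclotomic
  character. The local condition is given by a basis `l 0`, …, `l (k - 1)` of ANY subspace `L` of
  `H¹(ℚ_2, V)` with `L = L^⊥` for the cup product. Let `s² = -d`, `s'² = -d'`, so `F = ℚ(s s')`. The
  first part says that the Selmer group of the classes in `H¹(F, V ⊗ sgn s)` that are unramified outside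
  `2` and in `L` at the two places above `2` has finite even dimension at most `2 k`.

* The second part says that for every newform `f` on `Γ_0(2 ^ r)` of any weight the product
  `L(g, s) = L(f ⊗ ε_{-d}, s) L(f ⊗ ε_{-d'}, s)`, defined by its Euler product, is an entire function,
  and that its order at the centre `1 / 2` (in the analytic normalisation) is even. Here
  `ε_{-d}(p) = (p/d)` is the character of `ℚ(√-d)`; the two forms `f ⊗ ε_{-d}` and `f ⊗ ε_{-d'}` are
  the ones whose base changes to `F` are `g`.

The first part applies to `V = V_{f,λ}(k/2)`, `n = 2`, `L = H¹_f(ℚ_2, V)`: the determinant is `χ`, and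
so the standard alternating form is such a form `Ω`; the representation is residually unipotent because
the semisimplification of every representation `GQ → GL_2(F̄_2)` unramified outside `2` is trivial
(Tate); `L = L^⊥` by Bloch and Kato, and `dim L = 1`. Then the Selmer group is `H¹_f(F, V_g)`, as
`V_g = V ⊗ sgn s` on the Galois group of `F`. (These deductions use published theorems and are not
part of the formal proof.) The first part also applies to the representations `V` induced from the
representations of Hilbert newforms of all weights and of `2`-power level over the totally real fields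
`F_0` whose Galois closure is a `2`-extension unramified outside `2`, as `ℚ(√2)`; this gives by
Shapiro's lemma the even parity over `F_0(√(dd'))`.

## The proof

Restricting to `ℚ(√-d)` one has `dim Sel(ℚ, V) + dim Sel(ℚ, V ⊗ sgn s) = dim Sel(ℚ(√-d), V)`, and this
is `dim L` modulo `2` by the theorem `Pool.Agent.Results.MP_b4b3cb_nt.ParityEveryDimension.result` on
conjugate self-dual representations, which is one of the starting results. The same is true for `s'`,
so `dim Sel(ℚ, V ⊗ sgn s)` and `dim Sel(ℚ, V ⊗ sgn s')` have the same parity, and the sum of the two is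
the dimension of the Selmer group over `F`. On the analytic side, the signs of the functional
equations of the two twists are the products of the same number and of `ε_{-d}(-2 ^ r) = -1`,
`ε_{-d'}(-2 ^ r) = -1`.
-/

set_option autoImplicit false

namespace Pool.Agent.Results.MP_d4aa36_nt.EvenParityRealQuadratic

open Matrix IsLocalRing UpperHalfPlane MatrixGroups CongruenceSubgroup
open Pool.Agent.H55.PR
open Pool.Agent.W97.TW (IsNewform lam)

/-- The Euler factor at `p` of `L(f ⊗ ε, s)`, in the analytic normalisation, for a form `f` of level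
`N`: `1 - a_p p^(-(k-1)/2) x p^(-s) + [p ∤ N] x² p^(-2s)`, where `x = ε(p)`. -/
noncomputable def factor (N : ℕ) (k : ℤ) (f : CuspForm (Gamma0 N : Subgroup (GL (Fin 2) ℝ)) k)
    (p : ℕ) (x s : ℂ) : ℂ :=
  1 - lam N k f p * x * (p : ℂ) ^ (-s) + (if p ∣ N then 0 else 1) * x ^ 2 * (p : ℂ) ^ (-2 * s)

/-- `L` is the `L`-function of `g = BC_F(f) ⊗ η`, `F = ℚ(√(dd'))`, `η` the character of `F(√-d)/F`: an
entire function that for `Re s > 3/2` is the product of the Euler factors of `f ⊗ ε_{-d}` and of
`f ⊗ ε_{-d'}`, with `ε_{-d}(p) = (p/d)`. The centre is `1 / 2`. -/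
def IsLFunction (N : ℕ) (k : ℤ) (f : CuspForm (Gamma0 N : Subgroup (GL (Fin 2) ℝ)) k) (d d' : ℕ)
    (L : ℂ → ℂ) : Prop :=
  Differentiable ℂ L ∧ ∀ s : ℂ, 3 / 2 < s.re → HasProd (fun p : Nat.Primes =>
    (factor N k f p (jacobiSym (p : ℕ) d : ℂ) s * factor N k f p (jacobiSym (p : ℕ) d' : ℂ) s)⁻¹) (L s)

/-- The Selmer group of `V ⊗ sgn s` over `ℚ(t)` for the local condition `L` at the places above `2` has
the dimension `r`: there is a basis `z 0`, …, `z (r - 1)`. -/
def SelmerDimension {A : Type} [CommRing A] [TopologicalSpace A] (E : Type) [Field E] [Algebra A E]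
    {n : ℕ} (ρ : GQ →* GL (Fin n) A) (s t : QBar) (ι : Emb 2) {k : ℕ}
    (l : Fin k → Dec ι → Fin n → E) (r : ℕ) : Prop :=
  ∃ z : Fin r → GF t → Fin n → E, (∀ i, InSelmer E ρ s t ι l (z i)) ∧
    Independent E (fun σ : GF t => tw E ρ s σ) z ∧
    ∀ y, InSelmer E ρ s t ι l y → InSpan E (fun σ : GF t => tw E ρ s σ) z y

/-- **The parity conjecture for the forms `g = BC_F(f) ⊗ η` at the places above `2`**: the Selmer
groups have even dimension and the order of the `L`-function at the centre is even. -/
theorem result : ∀ d d' : ℕ, InClass d → InClass d' → d ≠ d' →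
    (∀ s s' : QBar, s ^ 2 = -(d : QBar) → s' ^ 2 = -(d' : QBar) →
      ∀ (A : Type) [CommRing A] [IsDomain A] [IsLocalRing A] [TopologicalSpace A]
        [IsTopologicalRing A] [Algebra ℤ_[2] A] [Module.Finite ℤ_[2] A] [Module.Free ℤ_[2] A],
        IsAdic (maximalIdeal A) →
      ∀ (E : Type) [Field E] [Algebra A E] [IsFractionRing A E] (n : ℕ) (ρ : GQ →* GL (Fin n) A),
        Admissible ρ → ∀ Ω : Matrix (Fin n) (Fin n) E, Symplectic E ρ Ω →
      ∀ (ι : Emb 2) (k : ℕ) (l : Fin k → Dec ι → Fin n → E), Lagrangian E ρ Ω ι l →
        ∃ r : ℕ, SelmerDimension E ρ s (s * s') ι l r ∧ Even r ∧ r ≤ 2 * k) ∧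
    ∀ (r : ℕ) (k : ℤ), 0 < k → ∀ f : CuspForm (Gamma0 (2 ^ r) : Subgroup (GL (Fin 2) ℝ)) k,
      IsNewform (2 ^ r) k f → ∃ L : ℂ → ℂ, IsLFunction (2 ^ r) k f d d' L ∧
        ∃ m : ℕ, analyticOrderAt L (1 / 2) = m ∧ Even m := by
  intro d d' hd hd' hne
  refine ⟨?_, ?_⟩
  · intro s s' hs hs' A _ _ _ _ _ _ _ _ hA E _ _ _ n ρ hρ Ω hΩ ι k l hl
    obtain ⟨r, h1, h2, z, h3, h4, h5⟩ := even hd hd' hne hs hs' hA hρ hΩ hl
    exact ⟨r, ⟨z, h3, h4, h5⟩, h1, h2⟩
  · intro r k hk f hf
    obtain ⟨L, h1, h2, m, h3, h4⟩ := evenL hd hd' hk hf
    exact ⟨L, ⟨h1, h2⟩, m, h4, h3⟩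

end Pool.Agent.Results.MP_d4aa36_nt.EvenParityRealQuadratic
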