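import Mathlib
import Pool.Agent.H55.OR.OddMain
import Pool.Agent.H55.OR.AnOdd

/-!
# The parity conjecture at the places above `2`, over real quadratic fields in which `2` is ramified: a
# family with odd orders

Let `m` be `1` or `2`, let `d` be a prime number that is `7` modulo `16`, or the product of a prime
number that is `5` modulo `8` and of a prime number that is `3` modulo `8`, and let `F` be the real
quadratic field `ℚ(√(md))`, in which `2` is ramified. Let `f` be a newform on `Γ_0(2 ^ r)` of any weight
`k`, `E` its coefficient field and `λ` a place of `E` above `2`. We assume that `f` has complex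
multiplication by `ℚ(√-m)`, or, more generally, that `f ⊗ ε_{-m} = f^σ` for an automorphism `σ` of `E`
that fixes `λ` (an inner twist). Let `g = BC_F(f)`, a Hilbert modular newform over `F` of parallel
weight `k`. The theorem is the parity conjecture for these `(F, g, λ)`: the dimension of
`H¹_f(F, V_{g,λ})` is odd (it is `1`), and the order of `L(g, s)` at the centre is odd.

(The known theorems on the parity conjecture for Hilbert modular forms are for odd primes that split
completely in `F`.)

## The formal statement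

* `GQ` is the absolute Galois group of `ℚ`, `ρ : GQ → GL_n(A)` is a representation over the ring of
  integers `A` of a finite extension `E` of `ℚ_2`, unramified outside `2` and residually unipotent, and
  `Ω` is an alternating form on `V = E ^ n` with `Ω(σ x, σ y) = χ(σ) Ω(x, y)`, `χ` the cyclotomic
  character. The local condition is given by a basis `l 0`, …, `l (k - 1)` of ANY subspace `L` of
  `H¹(ℚ_2, V)` with `L = L^⊥`. Let `u² = -m`; `τ` is an automorphism of `E` and `v ↦ T τ(v)` is a
  semilinear isomorphism of `V` with `V ⊗ sgn u` (`τ = 1` if `f` has complex multiplication). Let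
  `s² = -d`, so that `F = ℚ(s u)`. The field `F` has one place `w` above `2`, and
  `H¹(F_w, V) = H¹(ℚ_2, V) ⊕ H¹(ℚ_2, V ⊗ sgn u)`; the local condition at `w` is `L ⊕ T τ(L)`. The first
  part says that the Selmer group of the classes in `H¹(F, V)` that are unramified outside `2` and in
  `L ⊕ T τ(L)` at `w` has finite dimension `r ≤ k`, and that `k - r` is even. In particular the
  dimension is `1` if `k = 1`.

* The second part says that for all newforms `f`, `f'` on `Γ_0(2 ^ r)` of any weight with
  `a_p(f') = (-m/p) a_p(f)` for the odd primes `p`, that is, `f' = f ⊗ ε_{-m}`, and with the same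
  eigenvalue of the Fricke involution, the product
  `L(g, s) = L(f, s) L(f ⊗ ε_{md}, s) = L(f, s) L(f' ⊗ ε_{-d}, s)`, defined by its Euler product, is an
  entire function, and that its order at the centre `1 / 2` (in the analytic normalisation) is odd. (The
  Fricke involution is defined over `ℚ`, so the condition on the eigenvalues is satisfied by conjugate
  newforms.)

The first part applies to `V = V_{f,λ}(k/2)`, `n = 2`, `L = H¹_f(ℚ_2, V)`: the determinant is `χ`, and
so the standard alternating form is such a form `Ω`; the representation is residually unipotent because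
the semisimplification of every representation `GQ → GL_2(F̄_2)` unramified outside `2` is trivial
(Tate); `L = L^⊥` by Bloch and Kato, and `dim L = 1`. The Selmer group is `H¹_f(F, V_g)`. (These
deductions use published theorems and are not part of the formal proof.)

## The proof

`H¹(F, V)` is the sum of `H¹(ℚ, V)` and of `H¹(ℚ, V ⊗ sgn (s u))`, and the second space is isomorphic,
by `T τ`, to `H¹(ℚ, V ⊗ sgn s)`, with the condition `L` at `2`. The sum of the dimensions of the Selmer
groups over `ℚ` of `V` and of `V ⊗ sgn s` is the dimension of the Selmer group of `V` over the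
imaginary quadratic field `ℚ(s)`, which is `dim L` modulo `2` by the theorem
`Pool.Agent.Results.MP_b4b3cb_nt.ParityEveryDimension.result`, which is one of the starting results. On
the analytic side, the signs of the functional equations of `f` and of `f' ⊗ ε_{-d}` differ by
`ε_{-d}(-2 ^ r) = -1`.
-/

set_option autoImplicit false

namespace Pool.Agent.Results.MP_d4aa36_nt.OddParityRamified

open Matrix IsLocalRing UpperHalfPlane MatrixGroups CongruenceSubgroup
open Pool.Agent.H55.PR Pool.Agent.H55.OR
open Pool.Agent.W97.TW (IsNewform lam)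

/-- The Euler factor at `p` of `L(f ⊗ ε, s)`, in the analytic normalisation, for a form `f` of level
`N`: `1 - a_p p^(-(k-1)/2) x p^(-s) + [p ∤ N] x² p^(-2s)`, where `x = ε(p)`. -/
noncomputable def factor (N : ℕ) (k : ℤ) (f : CuspForm (Gamma0 N : Subgroup (GL (Fin 2) ℝ)) k)
    (p : ℕ) (x s : ℂ) : ℂ :=
  1 - lam N k f p * x * (p : ℂ) ^ (-s) + (if p ∣ N then 0 else 1) * x ^ 2 * (p : ℂ) ^ (-2 * s)

/-- `L` is the function `L(f, s) L(f' ⊗ ε_{-d}, s)`: an entire function that for `Re s > 3/2` is the
product of the Euler factors of `f` and of `f' ⊗ ε_{-d}`, with `ε_{-d}(p) = (p/d)`. The centre is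
`1 / 2`. If `f' = f ⊗ ε_{-m}`, this is the `L`-function of the base change of `f` to `ℚ(√(md))`. -/
def IsLFunction (N : ℕ) (k : ℤ) (f f' : CuspForm (Gamma0 N : Subgroup (GL (Fin 2) ℝ)) k) (d : ℕ)
    (L : ℂ → ℂ) : Prop :=
  Differentiable ℂ L ∧ ∀ s : ℂ, 3 / 2 < s.re → HasProd (fun p : Nat.Primes =>
    (factor N k f p 1 s * factor N k f' p (jacobiSym (p : ℕ) d : ℂ) s)⁻¹) (L s)

/-- `f'` is the twist of `f` by the character of `ℚ(√-m)`, and the eigenvalues of `f` and `f'` for the
Fricke involution are equal. -/
def IsTwin (m N : ℕ) (k : ℤ) (f f' : CuspForm (Gamma0 N : Subgroup (GL (Fin 2) ℝ)) k) : Prop :=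
  (∀ p : ℕ, p.Prime → p ≠ 2 →
    (qExpansion 1 f').coeff p = (jacobiSym (-(m : ℤ)) p : ℂ) * (qExpansion 1 f).coeff p) ∧
  ∃ W : ℂ, (∀ z : ℍ, f (ofComplex (-1 / ((N : ℂ) * z))) = W * (z : ℂ) ^ k * f z) ∧
    ∀ z : ℍ, f' (ofComplex (-1 / ((N : ℂ) * z))) = W * (z : ℂ) ^ k * f' z

/-- The Selmer group of `V` over `ℚ(t)`, for the local condition given by `L`, `τ` and `T` at the place
above `2`, has the dimension `r`: there is a basis `z 0`, …, `z (r - 1)`. -/
def SelmerDimension {A : Type} [CommRing A] [TopologicalSpace A] (E : Type) [Field E] [Algebra A E]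
    {n : ℕ} (ρ : GQ →* GL (Fin n) A) (t : QBar) (τ : E ≃+* E) (T : Matrix (Fin n) (Fin n) E)
    (ι : Emb 2) {k : ℕ} (l : Fin k → Dec ι → Fin n → E) (r : ℕ) : Prop :=
  ∃ z : Fin r → GF t → Fin n → E, (∀ i, InSelmerRam E ρ t τ T ι l (z i)) ∧
    Independent E (fun σ : GF t => mat E ρ σ) z ∧
    ∀ y, InSelmerRam E ρ t τ T ι l y → InSpan E (fun σ : GF t => mat E ρ σ) z y

/-- **The parity conjecture for the base changes to `ℚ(√(md))` of the forms with complex multiplication
by `ℚ(√-m)` or with an inner twist by its character, at the places above `2`**: the dimension of the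
Selmer group has the parity of `dim L`, and the order of the `L`-function at the centre is odd. -/
theorem result : ∀ m d : ℕ, m = 1 ∨ m = 2 → InClass d →
    (∀ s u : QBar, s ^ 2 = -(d : QBar) → u ^ 2 = -(m : QBar) →
      ∀ (A : Type) [CommRing A] [IsDomain A] [IsLocalRing A] [TopologicalSpace A]
        [IsTopologicalRing A] [Algebra ℤ_[2] A] [Module.Finite ℤ_[2] A] [Module.Free ℤ_[2] A],
        IsAdic (maximalIdeal A) →
      ∀ (E : Type) [Field E] [Algebra A E] [IsFractionRing A E] (n : ℕ) (ρ : GQ →* GL (Fin n) A),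
        Admissible ρ → ∀ Ω : Matrix (Fin n) (Fin n) E, Symplectic E ρ Ω →
      ∀ (ι : Emb 2) (k : ℕ) (l : Fin k → Dec ι → Fin n → E), Lagrangian E ρ Ω ι l →
      ∀ (τA : A ≃+* A) (τ : E ≃+* E) (T : Matrix (Fin n) (Fin n) E), SelfTwist E ρ u τA τ T →
        ∃ r : ℕ, SelmerDimension E ρ (s * u) τ T ι l r ∧ r ≤ k ∧ Even (k - r)) ∧
    ∀ (r : ℕ) (k : ℤ), 0 < k → ∀ f f' : CuspForm (Gamma0 (2 ^ r) : Subgroup (GL (Fin 2) ℝ)) k,
      IsNewform (2 ^ r) k f → IsNewform (2 ^ r) k f' → IsTwin m (2 ^ r) k f f' →
        ∃ L : ℂ → ℂ, IsLFunction (2 ^ r) k f f' d L ∧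
          ∃ o : ℕ, analyticOrderAt L (1 / 2) = o ∧ Odd o := by
  intro m d hm hd
  refine ⟨?_, ?_⟩
  · intro s u hs hu A _ _ _ _ _ _ _ _ hA E _ _ _ n ρ hρ Ω hΩ ι k l hl τA τ T hT
    obtain ⟨r, h1, h2, z, h3, h4, h5⟩ := odd hm hd hs hu hA hρ hΩ hl hT
    exact ⟨r, ⟨z, h3, h4, h5⟩, h1, h2⟩
  · intro r k hk f f' hf hf' hW
    obtain ⟨L, h1, h2, o, h3, h4⟩ := oddL hd hk hf hf' hW.2
    exact ⟨L, ⟨h1, h2⟩, o, h4, h3⟩

end Pool.Agent.Results.MP_d4aa36_nt.OddParityRamified
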